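import Mathlib
import Pool.Agent.V1162.TM.Names

set_option autoImplicit false

/-!
Adding a pendant vertex need not increase the treewidth threshold: the answer to Q1 is no.

`H` is the disjoint union of `t` triangles and a path. If `t` is large, then the threshold `f(H)`
exceeds `3 t + 1` already for a path with one vertex, because of graphs of large treewidth with few
disjoint cycles. But for a path with `m + 1` vertices and `m` large (for fixed `t`) the threshold is
at most `m + 3 t` (`forces_tp`). So when the path grows from one to `m + 1` vertices, a pendant vertex
being attached to its end again and again, the threshold does not always grow by one.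
-/

namespace Pool.Agent.Results.MP_420e77_co.PendantFails

open Pool.Agent.V1162.TM Pool.Agent.TH507.Host

/-- **Q1 is false.** For every sufficiently large `t` there is a `j` such that, for the planar graph
`H` which is the disjoint union of `t` triangles and a path with `j + 1` vertices, and for `H'`
obtained from `H` by attaching a pendant vertex at the last vertex of the path, both thresholds
`f(H)` and `f(H')` exist and `f(H') = f(H)`. -/
theorem result :
    ∃ t₀ : ℕ, ∀ t : ℕ, t₀ ≤ t → ∃ j : ℕ,
      PlanarD (triPath t j) ∧
      (∃ k, Forces (triPath t j) k) ∧
      (∃ k, Forces (addPendant (triPath t j) (Sum.inr (Fin.last j))) k) ∧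
      thr (addPendant (triPath t j) (Sum.inr (Fin.last j))) = thr (triPath t j) := by
  obtain ⟨t₀, h₀⟩ := exists_stall
  refine ⟨t₀, fun t ht => ?_⟩
  obtain ⟨j, -, h⟩ := h₀ t ht
  refine ⟨j, ?_⟩
  rw [addPendant_eq, triPath_eq]
  refine ⟨tp_planar _ _, exists_forces _ _, ?_, ?_⟩
  · obtain ⟨k, hk⟩ := exists_forces t (j + 1)
    exact ⟨k, forces_congr (fun V G h => (pendant_iff t j V G).2 h) hk⟩
  · rw [thr_congr (fun V G => pendant_iff t j V G)]
    exact h

end Pool.Agent.Results.MP_420e77_co.PendantFails
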